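import Pool.Agent.H40.Deg

set_option autoImplicit false

theorem Pool.Agent.Results.MP_d395f7_lc.DegreeDefinable.result :
    letI := FirstOrder.Ring.compatibleRingOfRing (Polynomial ℂ)
    ({Polynomial.X} : Set (Polynomial ℂ)).Definable FirstOrder.Language.ring
      {v : Fin 2 → Polynomial ℂ | (v 0).degree = (v 1).degree} :=
  letI := FirstOrder.Ring.compatibleRingOfRing (Polynomial ℂ)
  Pool.Agent.H40.Deg.main
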